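import Pool.Agent.Y156.J.AbMain

/-!
# The effective Shafarevich conjecture for factors of Jacobians of Galois covers

Let `S` be the spectrum of `ℤ[1/N]`.

1. The effective Shafarevich conjecture holds for all abelian schemes over `S` that are, up to isogeny
  over `ℚ̄`, direct factors of a product of Jacobians of curves over `ℚ` with good reduction over `S` and of
  abelian schemes over `S` of product `GL_2`-type, where the curves are geometrically Galois covers
  of curves of genus at most one, or belong to one of the larger classes `Tower m n` (and the number and
  the dimensions of the factors are bounded by a computable function `R` of the relative dimension; for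
  isogenies, all of them are at most the relative dimension). Known: product `GL_2`-type (von Kaenel).
2. More generally, the effective Shafarevich conjecture for any class of curves and any class of abelian
  schemes implies it for the abelian schemes that are, up to isogeny over `ℚ̄`, direct factors of
  products of the members of these classes over the same base.

The abelian schemes, curves and heights are given by their known properties (`IsAb`).
-/

set_option autoImplicit false

namespace Pool.Agent.Results.MP_07b2d0_nt.FactorsOfJacobians

open Pool.Agent.Y156.J

/-- The effective Shafarevich conjecture for factors of products of Jacobians of Galois covers of curves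
of genus at most one and of abelian schemes of product `GL_2`-type. -/
theorem result (T : AbData) (hT : IsAb T) :
    (∀ R : ℕ → ℕ, Computable R →
      AbBounded T (FactorOf T (IsGaloisCover T.toShafData) T.GL2 R)) ∧
    (∀ (m n : ℕ) (R : ℕ → ℕ), Computable R →
      AbBounded T (FactorOf T (Tower T.toShafData m n) T.GL2 R)) ∧
    (∀ (P : T.C → Prop) (Q : ℕ → T.A → Prop) (R : ℕ → ℕ), Computable R →
      EffBounded T.toShafData P → AbBounded T Q → AbBounded T (FactorOf T P Q R)) :=
  ⟨fun _ hR => abBounded_factorOf hT (effBounded_galois hT.shaf) hT.gl2 hR,
    fun m n _ hR => abBounded_factorOf hT (effBounded_tower hT.shaf m n) hT.gl2 hR,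
    fun _ _ _ hR hP hQ => abBounded_factorOf hT hP hQ hR⟩

end Pool.Agent.Results.MP_07b2d0_nt.FactorsOfJacobians
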